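import Mathlib

namespace Pool.Agent.Results.MP_ecf776_lc.ExpLowerBound

/-- `v` arises from `u` by one insertion, one deletion or one substitution of a symbol. -/
def Edit {α : Type} (u v : List α) : Prop :=
  ∃ (p q : List α) (a b : α), (u = p ++ q ∧ v = p ++ b :: q) ∨ (u = p ++ a :: q ∧ v = p ++ q) ∨
    (u = p ++ a :: q ∧ v = p ++ b :: q)

/-- `Within k u w`: at most `k` edits transform `u` into `w`, i.e. edit distance `d(u,w) ≤ k`. -/
def Within {α : Type} : ℕ → List α → List α → Prop
  | 0, u, w => u = w
  | k + 1, u, w => u = w ∨ ∃ v, Edit u v ∧ Within k v w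

section
variable {α : Type}

lemma refl (k : ℕ) (u : List α) : Within k u u := by cases k <;> simp [Within]

lemma succ {k : ℕ} {u w : List α} (h : Within k u w) : Within (k + 1) u w := by
  induction k generalizing u with
  | zero => exact Or.inl h
  | succ k ih =>
    rcases h with h | ⟨v, h1, h2⟩
    · exact Or.inl h
    · exact Or.inr ⟨v, h1, ih h2⟩

lemma mono {k l : ℕ} {u w : List α} (h : Within k u w) (hl : k ≤ l) : Within l u w := by
  induction hl with
  | refl => exact h
  | step _ ih => exact succ ih

lemma cons {k : ℕ} {u w : List α} (c : α) (h : Within k u w) : Within k (c :: u) (c :: w) := by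
  induction k generalizing u with
  | zero => exact congrArg _ h
  | succ k ih =>
    rcases h with h | ⟨v, ⟨p, q, a, b, h1⟩, h2⟩
    · exact Or.inl (congrArg _ h)
    · refine Or.inr ⟨c :: v, ⟨c :: p, q, a, b, ?_⟩, ih h2⟩
      simpa using h1

lemma ins_list {k : ℕ} {x w : List α} (r : List α) (h : Within k x w) :
    Within (k + r.length) x (r ++ w) := by
  induction r generalizing x w k with
  | nil => simpa using h
  | cons b r ih =>
    exact Or.inr ⟨b :: x, ⟨[], x, b, b, Or.inl ⟨rfl, rfl⟩⟩, cons b (ih h)⟩

lemma lower {k : ℕ} {x w : List α} (h : Within k x w) :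
    ∃ s : List α, s.Sublist x ∧ s.Sublist w ∧ w.length ≤ k + s.length := by
  induction k generalizing x with
  | zero => exact ⟨x, .refl _, h ▸ .refl _, by rw [show x = w from h]; omega⟩
  | succ k ih =>
    rcases h with h | ⟨v, ⟨p, q, a, b, h1⟩, h2⟩
    · exact ⟨x, .refl _, h ▸ .refl _, by rw [h]; omega⟩
    · obtain ⟨s, s1, s2, s3⟩ := ih h2
      have key : v = p ++ b :: q →
          ∃ s : List α, s.Sublist (p ++ q) ∧ s.Sublist w ∧ w.length ≤ k + 1 + s.length := by
        rintro rfl
        obtain ⟨y, z, rfl, h3, h4⟩ := List.sublist_append_iff.mp s1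
        refine ⟨y ++ z.tail, h3.append h4.tail,
          ((List.Sublist.refl y).append (List.tail_sublist z)).trans s2, ?_⟩
        simp only [List.length_append, List.length_tail] at *; omega
      have hs : (p ++ q).Sublist (p ++ a :: q) := by simp
      rcases h1 with ⟨rfl, h⟩ | ⟨rfl, rfl⟩ | ⟨rfl, h⟩
      · exact key h
      · exact ⟨s, s1.trans hs, s2, by omega⟩
      · obtain ⟨s, a1, a2, a3⟩ := key h
        exact ⟨s, a1.trans hs, a2, a3⟩

variable [DecidableEq α]

lemma sub_list (f : α → α) (p : List α) {k : ℕ} {x w : List α} (h : Within k x w) :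
    Within (k + p.countP (fun a => ¬ f a = a)) (p ++ x) (p.map f ++ w) := by
  induction p with
  | nil => simpa using h
  | cons a p ih =>
    by_cases e : f a = a
    · simpa [e] using cons a ih
    · rw [List.countP_cons_of_pos (by simpa using e)]
      exact Or.inr ⟨f a :: (p ++ x), ⟨[], p ++ x, a, f a, Or.inr (Or.inr ⟨rfl, rfl⟩)⟩, cons _ ih⟩

lemma probe (z : α) (f : α → α) (hf : ∀ a, f a = a ∨ f a = z) (p q : List α)
    (hn : (p ++ q).Nodup) (hz : z ∉ p ++ q) (t : ℕ) :
    Within (p ++ q).length (p ++ q) ((p ++ q).map f ++ (q ++ List.replicate t z))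
      ↔ t ≤ p.countP (fun a => f a = a) := by
  constructor
  · intro h
    obtain ⟨s, a, b, c⟩ := lower h
    obtain ⟨s1, s2, rfl, h1, h2⟩ := List.sublist_append_iff.mp a
    have h3 : s1.countP (fun a => f a = a) = s1.length := by
      rw [List.countP_eq_length]
      intro y hy
      have hyp : y ∈ p := h1.subset hy
      have hyw := b.subset (List.mem_append_left _ hy)
      have hyq : y ∉ q := fun h => (List.nodup_append.mp hn).2.2 y hyp y h rfl
      have hyz : y ≠ z := fun e => hz (e ▸ List.mem_append_left _ hyp)
      rw [List.mem_append, List.mem_append, List.mem_replicate, List.mem_map] at hyw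
      rcases hyw with ⟨u, -, hu⟩ | h | h
      · rcases hf u with h | h
        · rw [h] at hu; subst hu; simpa using h
        · exact absurd (hu.symm.trans h) hyz
      · exact absurd h hyq
      · exact absurd h.2 hyz
    have h4 := h1.countP_le (p := fun a => f a = a)
    have h5 := h2.length_le
    simp only [List.length_append, List.length_map, List.length_replicate] at *
    omega
  · intro h
    have h1 := sub_list f p (ins_list (q.map f) (sub_list id q
      (ins_list (List.replicate t z) (refl 0 []))))
    have h2 := List.length_eq_countP_add_countP (l := p) (fun a => f a = a)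
    simp only [List.map_append, List.append_assoc, List.length_append, List.length_map, id,
      List.map_id, List.append_nil, List.length_replicate] at *
    refine mono h1 ?_
    simp at *
    omega

end

theorem result : ∀ N : ℕ, ∃ (A : Type) (_ : Fintype A) (x : List A) (k : ℕ),
    N ≤ min k x.length ∧
    ∀ (σ : Type) [Fintype σ] (M : DFA A σ), (∀ w, w ∈ M.accepts ↔ Within k x w) →
      2 ^ min k x.length ≤ Fintype.card σ := by
  intro m
  set x : List (Option (Fin m)) := List.ofFn some with hx
  have hl : x.length = m := by simp [hx]
  refine ⟨Option (Fin m), inferInstance, x, m, by simp [hl], ?_⟩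
  intro σ _ M hM
  rw [hl, min_self]
  let f : (Fin m → Bool) → Option (Fin m) → Option (Fin m) :=
    fun S a => a.bind fun j => if S j then some j else none
  have hf : ∀ S a, f S a = a ∨ f S a = none := by
    intro S a
    cases a with
    | none => simp [f]
    | some j => by_cases h : S j <;> simp [f, h]
  have hn : x.Nodup := List.nodup_ofFn.mpr (Option.some_injective _)
  have hz : none ∉ x := by simp [hx]
  have key : ∀ S i t, M.evalFrom (M.eval (x.map (f S))) (x.drop i ++ List.replicate t none) ∈ M.accept
      ↔ t ≤ (x.take i).countP (fun a => f S a = a) := by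
    intro S i t
    have := probe none (f S) (hf S) (x.take i) (x.drop i) (by simpa using hn) (by simpa using hz) t
    rw [List.take_append_drop, hl] at this
    rw [← this, ← hM, DFA.mem_accepts]
    simp only [DFA.eval, DFA.evalFrom_of_append]
  have inj : Function.Injective fun S : Fin m → Bool => M.eval (x.map (f S)) := by
    intro S T h
    simp only at h
    have e : ∀ i, (x.take i).countP (fun a => f S a = a) = (x.take i).countP (fun a => f T a = a) := by
      intro i
      apply le_antisymm
      · rw [← key, ← h, key]
      · rw [← key, h, key]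
    funext j
    have e1 := e j
    have e2 := e (j + 1)
    have hj : (j : ℕ) < x.length := by rw [hl]; exact j.2
    have hxj : x[(j : ℕ)] = some j := by simp [hx]
    rw [List.take_add_one, List.getElem?_eq_getElem hj, hxj] at e2
    simp only [Option.toList_some, List.countP_append, e1, List.countP_singleton] at e2
    cases hS : S j <;> cases hT : T j <;> simp [f, hS, hT] at e2 ⊢
  simpa using Fintype.card_le_of_injective _ inj

end Pool.Agent.Results.MP_ecf776_lc.ExpLowerBound
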